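import Mathlib
import Pool.Agent.N290.RK.Stm3
import Pool.Agent.N655.RJ.LA1

/-!
# Project RK (helper290), part LT: local solutions of the Bezout equation for dilated data

Part LT of the project RK of helper290 (statements `XC`, `SS`, `LAL`, `LT` in
`Pool/Agent/N290/RK/Stm.lean`, `Stm3.lean`, and the plan of the proof, are by helper290); written by
helper787.  The triangle inequality `nm_add` is from `Pool/Agent/N655/RJ/LA1.lean` (helper655).
-/

set_option autoImplicit false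

open Complex MeasureTheory Set Filter Topology
open scoped ENNReal

namespace Pool.Agent.N787.RK

open Pool.Agent.N290.RJ Pool.Agent.N290.RK

variable {d : ℕ}

/-- a slowly varying square-Dini function tends to zero -/
theorem om_tendsto {K : ℝ} {ω : ℝ → ℝ} (hω : Slow K ω)
    (hI : ∫⁻ t in Ioo (0 : ℝ) 1, ENNReal.ofReal (ω t ^ 2 / t) ≠ ⊤) :
    Tendsto ω (𝓝[>] 0) (𝓝 0) := by
  rw [Metric.tendsto_nhdsWithin_nhds]
  intro δ hδ
  by_contra hcon
  push Not at hcon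
  have h1 : ∀ t, 0 < t → δ ≤ ω t := by
    intro t ht
    obtain ⟨x, hx0, hxt, hx⟩ := hcon t ht
    have hx0' : 0 < x := hx0
    rw [Real.dist_eq, sub_zero, abs_of_nonneg (hω.2.1 x).1] at hx
    rw [Real.dist_eq, sub_zero, abs_of_pos hx0'] at hxt
    exact hx.trans (hω.1 hxt.le)
  have h2 : ∫⁻ t in Ioo (0 : ℝ) 1, ENNReal.ofReal (δ ^ 2 / t) < ⊤ := by
    refine lt_of_le_of_lt ?_ (lt_top_iff_ne_top.2 hI)
    refine setLIntegral_mono' measurableSet_Ioo fun t ht => ENNReal.ofReal_le_ofReal ?_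
    exact div_le_div_of_nonneg_right (pow_le_pow_left₀ hδ.le (h1 t ht.1) 2) ht.1.le
  have h3 : IntegrableOn (fun t : ℝ => δ ^ 2 / t) (Ioo 0 1) := by
    refine ⟨(measurable_const.div measurable_id).aestronglyMeasurable, ?_⟩
    rw [hasFiniteIntegral_iff_ofReal]
    · exact h2
    · refine (ae_restrict_iff' measurableSet_Ioo).2 (Eventually.of_forall fun t ht => ?_)
      have : 0 < t := ht.1
      show (0 : ℝ) ≤ δ ^ 2 / t
      positivity
  have h4 : IntegrableOn (fun t : ℝ => t ^ (-1 : ℝ)) (Ioo 0 1) := by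
    have h5 := h3.const_mul (δ ^ 2)⁻¹
    refine IntegrableOn.congr_fun (μ := volume) h5 (fun t ht => ?_) measurableSet_Ioo
    have : 0 < t := ht.1
    show (δ ^ 2)⁻¹ * (δ ^ 2 / t) = t ^ (-1 : ℝ)
    rw [Real.rpow_neg_one]
    field_simp
  have h5 := (intervalIntegral.integrableOn_Ioo_rpow_iff (s := -1) (t := 1) one_pos).1 h4
  exact lt_irrefl _ h5

/-- distance to the boundary -/
theorem one_sub_nm {p z : E d} (hp : N p = 1) : 1 - nm z ≤ nm (z - p) := by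
  have h1 : nm p = 1 := by rw [nm, hp, Real.sqrt_one]
  have h2 : nm (p - z) = nm (z - p) := by
    unfold nm N
    simp only [Prod.fst_sub, Prod.snd_sub, Pi.sub_apply, norm_sub_rev]
  have h3 := Pool.Agent.N655.RJ.nm_add z (p - z)
  rw [add_sub_cancel, h1, h2] at h3
  linarith

/-- `∂̄` of the conjugate of a dilated holomorphic function -/
theorem db_conj_dil {f : E d → ℂ} {z : E d} {r : ℝ} (hf : DifferentiableAt ℂ f (r • z))
    (ξ : E d) : db (fun w => starRingEnd ℂ (f (r • w))) z ξ =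
      starRingEnd ℂ (fderiv ℂ f (r • z) (r • ξ)) := by
  have h1 := (dil_hasFDerivAt hf).restrictScalars ℝ
  have h2 : HasFDerivAt (fun w => starRingEnd ℂ (f (r • w))) _ z :=
    (Complex.conjCLE.toContinuousLinearMap.hasFDerivAt (x := f (r • z))).comp z h1
  have h5 : (fderiv ℂ f (r • z)) (I • (r • ξ)) = I * (fderiv ℂ f (r • z)) (r • ξ) := by
    rw [ContinuousLinearMap.map_smul]; rfl
  have h6 : ∀ η : E d, fderiv ℝ (fun w => starRingEnd ℂ (f (r • w))) z η =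
      starRingEnd ℂ ((fderiv ℂ f (r • z)) (r • η)) := by
    intro η
    rw [h2.fderiv]
    rfl
  have h3 : r • (I • ξ) = I • (r • ξ) := smul_comm _ _ _
  unfold db
  rw [h6, h6, h3, h5, map_mul, Complex.conj_I]
  have h4 : I * (-I * starRingEnd ℂ ((fderiv ℂ f (r • z)) (r • ξ))) =
      starRingEnd ℂ ((fderiv ℂ f (r • z)) (r • ξ)) := by
    rw [← mul_assoc, mul_neg, Complex.I_mul_I]; ring
  rw [h4]; ring

/-- products: size and `∂̄` -/
theorem prod_bd {M : ℕ} (s : Finset (Fin M)) {X : Fin M → E d → ℂ} {z : E d} {C a : ℝ}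
    (hC : 1 ≤ C) (hd : ∀ j, DifferentiableAt ℝ (X j) z) (hX : ∀ j, ‖X j z‖ ≤ C)
    (ξ : E d) (hdb : ∀ j, ‖db (X j) z ξ‖ ≤ C * a) :
    DifferentiableAt ℝ (fun w => ∏ j ∈ s, X j w) z ∧ ‖∏ j ∈ s, X j z‖ ≤ C ^ s.card ∧
      ‖db (fun w => ∏ j ∈ s, X j w) z ξ‖ ≤ s.card * (C ^ s.card * a) := by
  classical
  have hC0 : 0 ≤ C := by linarith
  induction s using Finset.induction_on with
  | empty =>
    simp only [Finset.prod_empty, Finset.card_empty, pow_zero, norm_one, le_refl, Nat.cast_zero,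
      zero_mul, true_and]
    refine ⟨differentiableAt_const _, ?_⟩
    rw [db_hol (differentiableAt_const _), norm_zero]
  | insert j s hj ih =>
    obtain ⟨h1, h2, h3⟩ := ih
    simp only [Finset.prod_insert hj, Finset.card_insert_of_notMem hj]
    refine ⟨(hd j).mul h1, ?_, ?_⟩
    · rw [norm_mul, pow_succ, mul_comm]
      exact mul_le_mul h2 (hX j) (norm_nonneg _) (by positivity)
    · rw [db_mul (hd j) h1]
      refine (norm_add_le _ _).trans ?_
      rw [norm_mul, norm_mul]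
      have h4 : ‖X j z‖ * ‖db (fun w => ∏ i ∈ s, X i w) z ξ‖ ≤ C * (s.card * (C ^ s.card * a)) :=
        mul_le_mul (hX j) h3 (norm_nonneg _) hC0
      have h5 : ‖∏ i ∈ s, X i z‖ * ‖db (X j) z ξ‖ ≤ C ^ s.card * (C * a) :=
        mul_le_mul h2 (hdb j) (norm_nonneg _) (by positivity)
      refine (add_le_add h4 h5).trans (le_of_eq ?_)
      push_cast
      ring

/-- differences of products -/
theorem prod_sub_bd {M : ℕ} (s : Finset (Fin M)) {x y : Fin M → ℂ} {Q δ : ℝ} (hQ : 1 ≤ Q)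
    (hδ : 0 ≤ δ) (hx : ∀ j, ‖x j‖ ≤ Q) (hy : ∀ j, ‖y j‖ ≤ Q) (hxy : ∀ j, ‖x j - y j‖ ≤ δ) :
    ‖∏ j ∈ s, x j‖ ≤ Q ^ s.card ∧
      ‖∏ j ∈ s, x j - ∏ j ∈ s, y j‖ ≤ s.card * (Q ^ s.card * δ) := by
  classical
  have hQ0 : 0 ≤ Q := by linarith
  induction s using Finset.induction_on with
  | empty => simp
  | insert j s hj ih =>
    obtain ⟨h1, h2⟩ := ih
    simp only [Finset.prod_insert hj, Finset.card_insert_of_notMem hj]
    refine ⟨?_, ?_⟩
    · rw [norm_mul, pow_succ, mul_comm]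
      exact mul_le_mul h1 (hx j) (norm_nonneg _) (by positivity)
    · have h3 : x j * ∏ i ∈ s, x i - y j * ∏ i ∈ s, y i =
          (x j - y j) * ∏ i ∈ s, x i + y j * (∏ i ∈ s, x i - ∏ i ∈ s, y i) := by ring
      rw [h3]
      refine (norm_add_le _ _).trans ?_
      rw [norm_mul, norm_mul]
      have h4 : ‖x j - y j‖ * ‖∏ i ∈ s, x i‖ ≤ δ * Q ^ s.card :=
        mul_le_mul (hxy j) h1 (norm_nonneg _) hδ
      have h5 : ‖y j‖ * ‖∏ i ∈ s, x i - ∏ i ∈ s, y i‖ ≤ Q * (s.card * (Q ^ s.card * δ)) :=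
        mul_le_mul (hy j) h2 (norm_nonneg _) hQ0
      have h6 : δ * Q ^ s.card ≤ Q ^ (s.card + 1) * δ := by
        rw [mul_comm, pow_succ]
        refine mul_le_mul_of_nonneg_right ?_ hδ
        exact le_mul_of_one_le_right (by positivity) hQ
      have h7 : Q * ((s.card : ℝ) * (Q ^ s.card * δ)) = s.card * (Q ^ (s.card + 1) * δ) := by
        rw [pow_succ]; ring
      rw [h7] at h5
      refine (add_le_add (h4.trans h6) h5).trans (le_of_eq ?_)
      push_cast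
      ring

open Classical in
/-- the function `Z κ` -/
noncomputable def Kf {M : ℕ} (ε r : ℝ) (f X : Fin M → E d → ℂ) (κ : E d → ℂ) (z : E d) : ℂ :=
  if ∀ j, ‖f j (r • z)‖ < ε then (∏ j, X j z) * κ (r • z) else 0

theorem Kf_pos {M : ℕ} {ε r : ℝ} {f X : Fin M → E d → ℂ} {κ : E d → ℂ} {z : E d}
    (h : ∀ j, ‖f j (r • z)‖ < ε) : Kf ε r f X κ z = (∏ j, X j z) * κ (r • z) := by
  unfold Kf
  rw [if_pos h]

theorem Kf_neg {M : ℕ} {ε r : ℝ} {f X : Fin M → E d → ℂ} {κ : E d → ℂ} {z : E d}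
    (h : ¬ ∀ j, ‖f j (r • z)‖ < ε) : Kf ε r f X κ z = 0 := by
  unfold Kf
  rw [if_neg h]

theorem Kf_props {M : ℕ} {ε r A C : ℝ} {f X : Fin M → E d → ℂ} {κ : E d → ℂ} (hε : 0 < ε)
    (hr0 : 0 ≤ r) (hr1 : r ≤ 1) (hf : ∀ j, DifferentiableOn ℂ (f j) (B d))
    (hκ : DifferentiableOn ℂ κ {z | z ∈ B d ∧ ∀ j, ‖f j z‖ < ε})
    (hκA : ∀ z ∈ B d, (∀ j, ‖f j z‖ < ε) → ‖κ z‖ ≤ A) (hC : 1 ≤ C)
    (hX : ∀ j, ContDiffOn ℝ 1 (X j) (B d)) (hXC : ∀ j, ∀ z ∈ B d, ‖X j z‖ ≤ C)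
    (hX0 : ∀ j, ∀ z ∈ B d, ε / 2 ≤ ‖f j (r • z)‖ → X j z = 0) {a : E d → ℝ}
    (ha : ∀ z ∈ B d, 0 ≤ a z)
    (hXd : ∀ j, ∀ z ∈ B d, ∀ ξ, ‖db (X j) z ξ‖ ≤ C * a z * len z ξ) :
    ContDiffOn ℝ 1 (Kf ε r f X κ) (B d) ∧ ∀ z ∈ B d, ‖Kf ε r f X κ z‖ ≤ C ^ M * |A| ∧
      ∀ ξ, ‖db (Kf ε r f X κ) z ξ‖ ≤ |A| * (M * C ^ M) * a z * len z ξ := by
  have hC0 : 0 ≤ C := by linarith
  have hcont : ∀ j, ∀ z ∈ B d, ContinuousAt (fun w => ‖f j (r • w)‖) z := by
    intro j z hz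
    have h1 : ContinuousAt (f j) (r • z) := (da_hol (hf j) (smul_mem_B hz hr0 hr1)).continuousAt
    have h2 : ContinuousAt (fun w : E d => r • w) z := (continuous_const_smul r).continuousAt
    exact (ContinuousAt.comp (f := fun w : E d => r • w) (g := f j) h1 h2).norm
  have hUo : IsOpen {z : E d | z ∈ B d ∧ ∀ j, ‖f j z‖ < ε} := by
    rw [isOpen_iff_mem_nhds]
    intro z hz
    have h1 : ∀ᶠ w in 𝓝 z, ∀ j, ‖f j w‖ < ε := by
      rw [eventually_all]
      intro j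
      exact ((da_hol (hf j) hz.1).continuousAt.norm).eventually_lt_const (hz.2 j)
    exact (B_open.eventually_mem hz.1).and h1
  have hκc : ContDiffOn ℝ 1 κ {z : E d | z ∈ B d ∧ ∀ j, ‖f j z‖ < ε} :=
    (Pool.Agent.Helper540.contDiffOn_of_differentiableOn hUo hκ 1).restrict_scalars ℝ
  -- the two kinds of points
  have key : ∀ z ∈ B d, ContDiffAt ℝ 1 (Kf ε r f X κ) z ∧ ‖Kf ε r f X κ z‖ ≤ C ^ M * |A| ∧
      ∀ ξ, ‖db (Kf ε r f X κ) z ξ‖ ≤ |A| * (M * C ^ M) * a z * len z ξ := by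
    intro z hz
    have hrz : r • z ∈ B d := smul_mem_B hz hr0 hr1
    have hXa : ∀ j, ContDiffAt ℝ 1 (X j) z := fun j => (hX j).contDiffAt (B_open.mem_nhds hz)
    by_cases hc : ∀ j, ‖f j (r • z)‖ < ε
    · have h1 : ∀ᶠ w in 𝓝 z, ∀ j, ‖f j (r • w)‖ < ε := by
        rw [eventually_all]
        intro j
        exact (hcont j z hz).eventually_lt_const (hc j)
      have h2 : Kf ε r f X κ =ᶠ[𝓝 z] fun w => (∏ j, X j w) * κ (r • w) := by
        filter_upwards [h1] with w hw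
        exact Kf_pos hw
      have hmem : r • z ∈ {z : E d | z ∈ B d ∧ ∀ j, ‖f j z‖ < ε} := ⟨hrz, hc⟩
      have h3 : ContDiffAt ℝ 1 κ (r • z) := hκc.contDiffAt (hUo.mem_nhds hmem)
      have h4 : ContDiffAt ℝ 1 (fun w : E d => κ (r • w)) z :=
        ContDiffAt.comp (g := κ) (f := fun w : E d => r • w) z h3
          (contDiff_const_smul r).contDiffAt
      have h5 : ContDiffAt ℝ 1 (fun w => ∏ j, X j w) z := by
        exact contDiffAt_prod fun j _ => hXa j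
      have h6 : DifferentiableAt ℂ κ (r • z) := hκ.differentiableAt (hUo.mem_nhds hmem)
      have h7 : DifferentiableAt ℂ (fun w : E d => κ (r • w)) z :=
        (dil_hasFDerivAt h6).differentiableAt
      have hA : ‖κ (r • z)‖ ≤ |A| := (hκA _ hrz hc).trans (le_abs_self A)
      refine ⟨(h5.mul h4).congr_of_eventuallyEq h2, ?_, ?_⟩
      · have h8 := (prod_bd (a := 1) Finset.univ (C := C) hC (X := fun j _ => X j z)
          (z := z) (fun j => differentiableAt_const _) (fun j => hXC j z hz) 0 (fun j => by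
            rw [db_hol (differentiableAt_const _), norm_zero]; linarith)).2.1
        rw [Finset.card_univ, Fintype.card_fin] at h8
        rw [Kf_pos hc, norm_mul]
        exact mul_le_mul h8 hA (norm_nonneg _) (by positivity)
      · intro ξ
        rw [db_congr h2, db_mul (h5.differentiableAt one_ne_zero) (h4.differentiableAt one_ne_zero),
          db_hol h7, mul_zero, zero_add, norm_mul]
        have h8 := (prod_bd (a := a z * len z ξ) Finset.univ (C := C) hC (X := X)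
          (z := z) (fun j => (hXa j).differentiableAt one_ne_zero) (fun j => hXC j z hz) ξ (fun j => by
            rw [← mul_assoc]; exact hXd j z hz ξ)).2.2
        rw [Finset.card_univ, Fintype.card_fin] at h8
        refine (mul_le_mul hA h8 (norm_nonneg _) (abs_nonneg _)).trans (le_of_eq ?_)
        ring
    · have h0 : ∃ j, ε ≤ ‖f j (r • z)‖ := by
        by_contra h
        push Not at h
        exact hc h
      obtain ⟨j, hj⟩ := h0
      have h1 : ∀ᶠ w in 𝓝 z, ε / 2 < ‖f j (r • w)‖ :=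
        (hcont j z hz).eventually_const_lt (by linarith)
      have h2 : Kf ε r f X κ =ᶠ[𝓝 z] fun _ => 0 := by
        filter_upwards [h1, B_open.eventually_mem hz] with w hw hwB
        by_cases hw2 : ∀ j, ‖f j (r • w)‖ < ε
        · rw [Kf_pos hw2, Finset.prod_eq_zero (Finset.mem_univ j) (hX0 j w hwB hw.le), zero_mul]
        · exact Kf_neg hw2
      have hz0 : 0 ≤ |A| := abs_nonneg _
      refine ⟨contDiffAt_const.congr_of_eventuallyEq h2, ?_, ?_⟩
      · rw [Kf_neg hc, norm_zero]; positivity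
      · intro ξ
        rw [db_congr h2, db_hol (differentiableAt_const _), norm_zero]
        have := ha z hz
        have := len_nonneg z ξ
        positivity
  exact ⟨fun z hz => (key z hz).1.contDiffWithinAt, fun z hz => (key z hz).2⟩


/-- the main algebra at one point -/
theorem main_alg {M L : ℕ} {Q A η : ℝ} (hQ : 1 ≤ Q) (hη0 : 0 ≤ η) (hη1 : η ≤ 1)
    {f Hf x HX : Fin M → ℂ} {G K HK : Fin L → ℂ} {D : ℂ} (hf : ∀ j, ‖f j‖ ≤ 1)
    (hHf : ∀ j, ‖Hf j - starRingEnd ℂ (f j)‖ ≤ 2 * η) (hx : ∀ j, ‖x j‖ ≤ Q)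
    (hHX : ∀ j, ‖HX j - x j‖ ≤ 2 * η) (hG : ∀ l, ‖G l‖ ≤ 1) (hK : ∀ l, ‖K l‖ ≤ A)
    (hHK : ∀ l, ‖HK l - K l‖ ≤ η) (hA : 0 ≤ A)
    (hD : D = ∑ j, f j * starRingEnd ℂ (f j) + ∑ l, G l * (K l * ∏ j, x j)) :
    ‖∑ j, f j * Hf j + ∑ l, G l * (HK l * ∏ j, HX j) - D‖ ≤
        η * (2 * M + L * ((Q + 2) ^ M * (1 + 2 * M * A))) ∧
      (∀ j, ‖Hf j‖ ≤ 3) ∧ ∀ l, ‖HK l * ∏ j, HX j‖ ≤ (A + 1) * (Q + 2) ^ M := by
  have hQ2 : 1 ≤ Q + 2 := by linarith
  have hQ0 : 0 ≤ Q + 2 := by linarith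
  have hHX2 : ∀ j, ‖HX j‖ ≤ Q + 2 := by
    intro j
    have h1 : ‖HX j‖ ≤ ‖HX j - x j‖ + ‖x j‖ := by
      have := norm_add_le (HX j - x j) (x j)
      rwa [sub_add_cancel] at this
    linarith [hHX j, hx j]
  have hx2 : ∀ j, ‖x j‖ ≤ Q + 2 := fun j => by linarith [hx j]
  obtain ⟨hp1, hp2⟩ := prod_sub_bd (Finset.univ : Finset (Fin M)) hQ2
    (by linarith : (0 : ℝ) ≤ 2 * η) hHX2 hx2 hHX
  rw [Finset.card_univ, Fintype.card_fin] at hp1 hp2
  have hHK2 : ∀ l, ‖HK l‖ ≤ A + 1 := by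
    intro l
    have h1 : ‖HK l‖ ≤ ‖HK l - K l‖ + ‖K l‖ := by
      have := norm_add_le (HK l - K l) (K l)
      rwa [sub_add_cancel] at this
    linarith [hHK l, hK l]
  refine ⟨?_, ?_, ?_⟩
  · have h1 : ∑ j, f j * Hf j + ∑ l, G l * (HK l * ∏ j, HX j) - D =
        ∑ j, f j * (Hf j - starRingEnd ℂ (f j)) +
        ∑ l, G l * ((HK l - K l) * ∏ j, HX j + K l * (∏ j, HX j - ∏ j, x j)) := by
      rw [hD, add_sub_add_comm, ← Finset.sum_sub_distrib, ← Finset.sum_sub_distrib]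
      congr 1
      · exact Finset.sum_congr rfl fun j _ => by ring
      · exact Finset.sum_congr rfl fun l _ => by ring
    rw [h1]
    refine (norm_add_le _ _).trans ?_
    have h2 : ‖∑ j, f j * (Hf j - starRingEnd ℂ (f j))‖ ≤ M * (2 * η) := by
      refine (norm_sum_le _ _).trans ?_
      refine (Finset.sum_le_sum fun j _ => (?_ : _ ≤ 2 * η)).trans (le_of_eq ?_)
      · rw [norm_mul]
        calc ‖f j‖ * ‖Hf j - starRingEnd ℂ (f j)‖ ≤ 1 * (2 * η) :=
              mul_le_mul (hf j) (hHf j) (norm_nonneg _) zero_le_one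
          _ = 2 * η := one_mul _
      · rw [Finset.sum_const, Finset.card_univ, Fintype.card_fin, nsmul_eq_mul]
    have h3 : ‖∑ l, G l * ((HK l - K l) * ∏ j, HX j + K l * (∏ j, HX j - ∏ j, x j))‖ ≤
        L * (η * (Q + 2) ^ M + A * (M * ((Q + 2) ^ M * (2 * η)))) := by
      refine (norm_sum_le _ _).trans ?_
      refine (Finset.sum_le_sum fun l _ =>
        (?_ : _ ≤ η * (Q + 2) ^ M + A * (M * ((Q + 2) ^ M * (2 * η))))).trans (le_of_eq ?_)
      · rw [norm_mul]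
        have h4 : ‖(HK l - K l) * ∏ j, HX j + K l * (∏ j, HX j - ∏ j, x j)‖ ≤
            η * (Q + 2) ^ M + A * (M * ((Q + 2) ^ M * (2 * η))) := by
          refine (norm_add_le _ _).trans (add_le_add ?_ ?_)
          · rw [norm_mul]
            exact mul_le_mul (hHK l) hp1 (norm_nonneg _) hη0
          · rw [norm_mul]
            exact mul_le_mul (hK l) hp2 (norm_nonneg _) hA
        calc _ ≤ 1 * (η * (Q + 2) ^ M + A * (M * ((Q + 2) ^ M * (2 * η)))) :=
              mul_le_mul (hG l) h4 (norm_nonneg _) zero_le_one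
          _ = _ := one_mul _
      · rw [Finset.sum_const, Finset.card_univ, Fintype.card_fin, nsmul_eq_mul]
    refine (add_le_add h2 h3).trans (le_of_eq ?_)
    ring
  · intro j
    have h1 : ‖Hf j‖ ≤ ‖Hf j - starRingEnd ℂ (f j)‖ + ‖starRingEnd ℂ (f j)‖ := by
      have := norm_add_le (Hf j - starRingEnd ℂ (f j)) (starRingEnd ℂ (f j))
      rwa [sub_add_cancel] at this
    rw [RCLike.norm_conj] at h1
    linarith [hHf j, hf j]
  · intro l
    rw [norm_mul]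
    exact mul_le_mul (hHK2 l) hp1 (norm_nonneg _) (by linarith)

theorem nm_cont : Continuous (nm : E d → ℝ) := Real.continuous_sqrt.comp N_continuous

theorem V_open (τ : ℝ) : IsOpen {z : E d | z ∈ B d ∧ 1 - nm z < τ} :=
  B_open.inter (isOpen_lt (continuous_const.sub nm_cont) continuous_const)

/-- subtracting a small solution and approximating -/
theorem lal_use {T R ρ η τ c₀ c₁ c₂ : ℝ} {ω : ℝ → ℝ} {p : E d}
    (hLA : ∀ h : E d → ℂ, ContDiffOn ℝ 1 h {z | z ∈ B d ∧ nm (z - p) < R} →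
      (∀ z ∈ B d, nm (z - p) < R → ‖h z‖ ≤ T) →
      (∀ z ∈ B d, nm (z - p) < R → ∀ ξ, ‖db h z ξ‖ ≤ T * ω (1 - N z) ^ 2 * len z ξ) →
      ∃ H : E d → ℂ, DifferentiableOn ℂ H (B d) ∧
        ∀ z ∈ B d, nm (z - p) < ρ → ‖H z - h z‖ ≤ η)
    (hp : N p = 1) (hRτ : R ≤ τ) {Y v : E d → ℂ} {Φ : E d → E d → ℂ}
    (hY : ContDiffOn ℝ 1 Y (B d)) (hYb : ∀ z ∈ B d, ‖Y z‖ ≤ c₀)
    (hYd : ∀ z ∈ B d, ∀ ξ, ‖db (fun w => starRingEnd ℂ (Y w)) z ξ - Φ z ξ‖ ≤
      c₁ * ω (1 - N z) ^ 2 * len z ξ)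
    (hv : ContDiffOn ℝ 1 v {z | z ∈ B d ∧ 1 - nm z < τ})
    (hvb : ∀ z ∈ B d, 1 - nm z < τ → ‖v z‖ ≤ η ∧ ∀ ξ,
      ‖db v z ξ - Φ z ξ‖ ≤ c₂ * ω (1 - N z) ^ 2 * len z ξ)
    (hT1 : c₀ + η ≤ T) (hT2 : c₁ + c₂ ≤ T) :
    ∃ H : E d → ℂ, DifferentiableOn ℂ H (B d) ∧
      ∀ z ∈ B d, nm (z - p) < min ρ R → ‖H z - starRingEnd ℂ (Y z)‖ ≤ 2 * η := by
  have hR : ∀ z : E d, nm (z - p) < R → 1 - nm z < τ := fun z hz =>
    lt_of_le_of_lt (one_sub_nm hp) (lt_of_lt_of_le hz hRτ)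
  have hYc : ContDiffOn ℝ 1 (fun w => starRingEnd ℂ (Y w)) (B d) :=
    Complex.conjCLE.contDiff.comp_contDiffOn hY
  obtain ⟨H, hH, hHb⟩ := hLA (fun w => starRingEnd ℂ (Y w) - v w)
    ((hYc.mono fun z hz => hz.1).sub (hv.mono fun z hz => ⟨hz.1, hR z hz.2⟩))
    (fun z hz hzR => by
      refine (norm_sub_le _ _).trans ?_
      rw [RCLike.norm_conj]
      linarith [hYb z hz, (hvb z hz (hR z hzR)).1])
    (fun z hz hzR ξ => by
      have h1 : DifferentiableAt ℝ (fun w => starRingEnd ℂ (Y w)) z :=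
        (hYc.contDiffAt (B_open.mem_nhds hz)).differentiableAt one_ne_zero
      have hmem : z ∈ {z : E d | z ∈ B d ∧ 1 - nm z < τ} := ⟨hz, hR z hzR⟩
      have h2 : DifferentiableAt ℝ v z :=
        (hv.contDiffAt ((V_open τ).mem_nhds hmem)).differentiableAt one_ne_zero
      rw [db_sub h1 h2]
      have h3 := hYd z hz ξ
      have h4 := (hvb z hz (hR z hzR)).2 ξ
      have h5 : db (fun w => starRingEnd ℂ (Y w)) z ξ - db v z ξ =
          (db (fun w => starRingEnd ℂ (Y w)) z ξ - Φ z ξ) - (db v z ξ - Φ z ξ) := by ring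
      rw [h5]
      refine (norm_sub_le _ _).trans ((add_le_add h3 h4).trans ?_)
      have h6 : 0 ≤ ω (1 - N z) ^ 2 * len z ξ := mul_nonneg (sq_nonneg _) (len_nonneg _ _)
      have h7 := mul_le_mul_of_nonneg_right hT2 h6
      calc _ = (c₁ + c₂) * (ω (1 - N z) ^ 2 * len z ξ) := by ring
        _ ≤ T * (ω (1 - N z) ^ 2 * len z ξ) := h7
        _ = _ := by ring)
  refine ⟨H, hH, fun z hz hzρ => ?_⟩
  have h1 := hHb z hz (lt_of_lt_of_le hzρ (min_le_left _ _))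
  have h2 := (hvb z hz (hR z (lt_of_lt_of_le hzρ (min_le_right _ _)))).1
  have h3 : H z - starRingEnd ℂ (Y z) = (H z - (starRingEnd ℂ (Y z) - v z)) - v z := by ring
  rw [h3]
  exact (norm_sub_le _ _).trans (by linarith)

/-- the denominator -/
theorem D_val {M L : ℕ} {ε r : ℝ} {f X : Fin M → E d → ℂ} {G κ : Fin L → E d → ℂ} {z : E d}
    (hε : 0 < ε)
    (hk3 : (∀ j, ‖f j (r • z)‖ < ε) → ∑ l, G l (r • z) * κ l (r • z) = 1)
    (hX0 : ∀ j, ε / 2 ≤ ‖f j (r • z)‖ → X j z = 0)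
    (hX1 : ∀ j, ‖f j (r • z)‖ ≤ ε / 4 → 1 ≤ ‖X j z‖) :
    ∃ D : ℝ, min ((ε / 4) ^ 2) 1 ≤ D ∧
      (D : ℂ) = ∑ j, f j (r • z) * starRingEnd ℂ (f j (r • z)) +
        ∑ l, G l (r • z) * (Kf ε r f X (κ l) z * ∏ j, starRingEnd ℂ (X j z)) := by
  refine ⟨∑ j, ‖f j (r • z)‖ ^ 2 + ‖∏ j, X j z‖ ^ 2, ?_, ?_⟩
  · have hs : 0 ≤ ∑ j, ‖f j (r • z)‖ ^ 2 := Finset.sum_nonneg fun j _ => sq_nonneg _
    by_cases h : ∀ j, ‖f j (r • z)‖ ≤ ε / 4
    · have h1 : 1 ≤ ‖∏ j, X j z‖ := by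
        rw [norm_prod]
        calc (1 : ℝ) = ∏ j : Fin M, (1 : ℝ) := by simp
          _ ≤ ∏ j, ‖X j z‖ := Finset.prod_le_prod (fun _ _ => zero_le_one)
              fun j _ => hX1 j (h j)
      have h2 : 1 ≤ ‖∏ j, X j z‖ ^ 2 := one_le_pow₀ h1
      exact (min_le_right _ _).trans (by linarith)
    · push Not at h
      obtain ⟨j, hj⟩ := h
      have h1 : ‖f j (r • z)‖ ^ 2 ≤ ∑ j, ‖f j (r • z)‖ ^ 2 :=
        Finset.single_le_sum (f := fun j => ‖f j (r • z)‖ ^ 2) (fun i _ => sq_nonneg _)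
          (Finset.mem_univ j)
      have h2 : (ε / 4) ^ 2 ≤ ‖f j (r • z)‖ ^ 2 :=
        pow_le_pow_left₀ (by positivity) hj.le 2
      have h3 : 0 ≤ ‖∏ j, X j z‖ ^ 2 := sq_nonneg _
      exact (min_le_left _ _).trans (by linarith)
  · simp only [mulconj]
    rw [← map_prod]
    push_cast
    congr 1
    have hz2 : ((‖∏ j, X j z‖ : ℝ) : ℂ) ^ 2 = (∏ j, X j z) * starRingEnd ℂ (∏ j, X j z) := by
      rw [mulconj]; push_cast; rfl
    rw [hz2]
    by_cases h : ∀ j, ‖f j (r • z)‖ < ε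
    · have h1 : ∑ l, G l (r • z) * (Kf ε r f X (κ l) z * starRingEnd ℂ (∏ j, X j z)) =
          (∑ l, G l (r • z) * κ l (r • z)) * ((∏ j, X j z) * starRingEnd ℂ (∏ j, X j z)) := by
        rw [Finset.sum_mul]
        refine Finset.sum_congr rfl fun l _ => ?_
        rw [Kf_pos h]; ring
      rw [h1, hk3 h, one_mul]
    · have h0 : ∃ j, ε ≤ ‖f j (r • z)‖ := by
        by_contra h'
        push Not at h'
        exact h h'
      obtain ⟨j, hj⟩ := h0
      rw [Finset.prod_eq_zero (Finset.mem_univ j) (hX0 j (by linarith)), zero_mul]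
      refine (Finset.sum_eq_zero fun l _ => ?_).symm
      rw [Kf_neg h, zero_mul, mul_zero]

theorem prod_hol {M : ℕ} (s : Finset (Fin M)) {H : Fin M → E d → ℂ}
    (h : ∀ j, DifferentiableOn ℂ (H j) (B d)) :
    DifferentiableOn ℂ (fun z => ∏ j ∈ s, H j z) (B d) := by
  classical
  induction s using Finset.induction_on with
  | empty => simp only [Finset.prod_empty]; exact differentiableOn_const _
  | insert j s hj ih =>
    simp only [Finset.prod_insert hj]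
    exact (h j).mul ih

theorem div_hol {S F : E d → ℂ} {p : E d} {ρ : ℝ} (hS : DifferentiableOn ℂ S (B d))
    (hF : DifferentiableOn ℂ F (B d)) (h0 : ∀ z ∈ B d, nm (z - p) < ρ → S z ≠ 0) :
    DifferentiableOn ℂ (fun z => F z / S z) {z | z ∈ B d ∧ nm (z - p) < ρ} := by
  intro z hz
  have h1 : DifferentiableAt ℂ (fun z => (S z)⁻¹) z :=
    (da_hol hS hz.1).inv (h0 z hz.1 hz.2)
  have h2 := (da_hol hF hz.1).mul h1
  simp only [div_eq_mul_inv]
  exact h2.differentiableWithinAt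

/-- **local solutions for dilated data** -/
theorem LT_of (d : ℕ) (hX : XC d) (hS : SS d) (hL : LAL d) : LT d := by
  intro M L ε A K ω hε hK hω hpos hI
  have hω0 : ∀ t, 0 ≤ ω t := fun t => (hω.2.1 t).1
  have htend := om_tendsto hω hI
  obtain ⟨CX0, hCX0, hXC⟩ := hX K (ε / 4) (ε / 2) hK (by linarith) (by linarith)
  obtain ⟨Q, hQ⟩ : ∃ Q, Q = max CX0 1 := ⟨_, rfl⟩
  have hQ1 : 1 ≤ Q := hQ ▸ le_max_right _ _
  have hQ2 : CX0 ≤ Q := hQ ▸ le_max_left _ _
  have hQ0 : 0 < Q := by linarith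
  obtain ⟨c, hc⟩ : ∃ c, c = min ((ε / 4) ^ 2) 1 := ⟨_, rfl⟩
  have hc0 : 0 < c := by rw [hc]; positivity
  obtain ⟨W, hW⟩ : ∃ W : ℝ, W = 2 * M + L * ((Q + 2) ^ M * (1 + 2 * M * (Q ^ M * |A|))) :=
    ⟨_, rfl⟩
  have hW0 : 0 ≤ W := by rw [hW]; positivity
  obtain ⟨η, hη⟩ : ∃ η : ℝ, η = min 1 (c / (2 * (W + 1))) := ⟨_, rfl⟩
  have hη0 : 0 < η := by rw [hη]; positivity
  have hη1 : η ≤ 1 := hη ▸ min_le_left _ _
  have hηW : η * W ≤ c / 2 := by
    have h1 : η ≤ c / (2 * (W + 1)) := hη ▸ min_le_right _ _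
    have h2 : η * (2 * (W + 1)) ≤ c := (le_div_iff₀ (by positivity)).1 h1
    nlinarith
  obtain ⟨τ, C₂, hτ, hC₂, hSS⟩ := hS K Q η ω hK hQ0 hη0 hω hpos htend
  obtain ⟨τ', C₂', hτ', hC₂', hSS'⟩ := hS K 1 η ω hK one_pos hη0 hω hpos htend
  obtain ⟨R, hR⟩ : ∃ R, R = min τ τ' := ⟨_, rfl⟩
  have hR0 : 0 < R := by rw [hR]; exact lt_min hτ hτ'
  have hRτ : R ≤ τ := hR ▸ min_le_left _ _
  have hRτ' : R ≤ τ' := hR ▸ min_le_right _ _
  obtain ⟨T, hT⟩ : ∃ T : ℝ, T = Q ^ M * |A| + |A| * (M * Q ^ M) + (Q + η) + (Q + C₂) + (1 + η) +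
    C₂' := ⟨_, rfl⟩
  have hA0 : 0 ≤ |A| := abs_nonneg A
  have ha1 : 0 ≤ Q ^ M * |A| := by positivity
  have ha2 : 0 ≤ |A| * (M * Q ^ M) := by positivity
  have hT0 : 0 < T := by linarith
  obtain ⟨ρ, hρ, hLA⟩ := hL T R K ω hT0 hR0 hK hω hI η hη0
  refine ⟨6 / c + (Q ^ M * |A| + 1) * (Q + 2) ^ M * (2 / c), min ρ R, lt_min hρ hR0, ?_⟩
  intro p hp f G κ hArb hfd k
  have hrk0 := rad_nonneg k
  have hrk1 : rad k ≤ 1 := (rad_lt_one k).le
  have hrz : ∀ z ∈ B d, rad k • z ∈ B d := fun z hz => smul_mem_B hz hrk0 hrk1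
  choose X P hXP using fun j => hXC (f j) ω (hArb.f1 j) (hArb.f2 j) hω hpos (hfd j)
  -- the conjugates of the `X j`
  have hHX : ∀ j, ∃ H : E d → ℂ, DifferentiableOn ℂ H (B d) ∧
      ∀ z ∈ B d, nm (z - p) < min ρ R → ‖H z - starRingEnd ℂ (X j k z)‖ ≤ 2 * η := by
    intro j
    obtain ⟨v, hv, hvb⟩ := hSS (f j) (P j) (hArb.f1 j) (hfd j) (fun k => (hXP j k).2.1)
      (fun k z hz => by
        obtain ⟨-, hP, -, -, hPP, hξ⟩ := (hXP j k).2.2 z hz
        have hw := hω0 (1 - N z)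
        have h1 : 0 ≤ st k z / uu z (rad k) := by
          refine div_nonneg ?_ (uu_pos hz (rad_lt_one k).le).le
          unfold st
          refine div_nonneg (mul_nonneg ?_ (nm_nonneg z)) (r_pos hz (rad_lt_one (k + 1)).le).le
          rw [rad_succ]; positivity
        refine ⟨hP.trans hQ2, hPP.trans ?_, fun ξ => (hξ ξ).2.2.trans ?_⟩
        · exact mul_le_mul_of_nonneg_right (mul_le_mul_of_nonneg_right hQ2 hw) h1
        · exact mul_le_mul_of_nonneg_right (mul_le_mul_of_nonneg_right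
            (mul_le_mul_of_nonneg_right hQ2 hw) (sq_nonneg _)) (len_nonneg _ _)) k
    exact lal_use (hLA p hp) hp hRτ (c₀ := Q) (c₁ := Q) (c₂ := C₂)
      (Φ := fun z ξ => P j k z * starRingEnd ℂ (fderiv ℂ (f j) (rad k • z) (rad k • ξ)))
      (hXP j k).1 (fun z hz => ((hXP j k).2.2 z hz).1.trans hQ2)
      (fun z hz ξ => (((hXP j k).2.2 z hz).2.2.2.2.2 ξ).2.1.trans
        (mul_le_mul_of_nonneg_right (mul_le_mul_of_nonneg_right hQ2 (sq_nonneg _))
          (len_nonneg _ _))) hv hvb (by linarith) (by linarith)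
  -- the conjugates of the `f j`
  have hHf : ∀ j, ∃ H : E d → ℂ, DifferentiableOn ℂ H (B d) ∧
      ∀ z ∈ B d, nm (z - p) < min ρ R → ‖H z - starRingEnd ℂ (f j (rad k • z))‖ ≤ 2 * η := by
    intro j
    obtain ⟨v, hv, hvb⟩ := hSS' (f j) (fun _ _ => 1) (hArb.f1 j) (hfd j)
      (fun k => contDiffOn_const)
      (fun k z hz => by
        have hw := hω0 (1 - N z)
        have h1 : 0 ≤ st k z / uu z (rad k) := by
          refine div_nonneg ?_ (uu_pos hz (rad_lt_one k).le).le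
          unfold st
          refine div_nonneg (mul_nonneg ?_ (nm_nonneg z)) (r_pos hz (rad_lt_one (k + 1)).le).le
          rw [rad_succ]; positivity
        refine ⟨by rw [norm_one], ?_, fun ξ => ?_⟩
        · rw [sub_self, norm_zero]; positivity
        · have h2 := len_nonneg z ξ
          rw [fderiv_const_apply, zero_apply, norm_zero]; positivity) k
    exact lal_use (hLA p hp) hp hRτ' (c₀ := 1) (c₁ := 0) (c₂ := C₂')
      (Y := fun z => f j (rad k • z))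
      (Φ := fun z ξ => 1 * starRingEnd ℂ (fderiv ℂ (f j) (rad k • z) (rad k • ξ)))
      (cd_dil (cd_hol (hArb.f1 j)) hrk0 hrk1) (fun z hz => hArb.f2 j _ (hrz z hz))
      (fun z hz ξ => by
        rw [db_conj_dil (da_hol (hArb.f1 j) (hrz z hz)), one_mul, sub_self, norm_zero,
          zero_mul, zero_mul]) hv hvb (by linarith) (by linarith)
  -- the functions `Z κ l`
  have hKp := fun l => Kf_props (M := M) (ε := ε) (r := rad k) (A := A) (C := Q) (f := f)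
    (X := fun j => X j k) (κ := κ l) hε hrk0 hrk1 hArb.f1 (hArb.k1 l) (hArb.k2 l) hQ1
    (fun j => (hXP j k).1) (fun j z hz => ((hXP j k).2.2 z hz).1.trans hQ2)
    (fun j z hz => ((hXP j k).2.2 z hz).2.2.1) (a := fun z => ω (1 - N z) ^ 2)
    (fun z _ => sq_nonneg _)
    (fun j z hz ξ => (((hXP j k).2.2 z hz).2.2.2.2.2 ξ).1.trans
      (mul_le_mul_of_nonneg_right (mul_le_mul_of_nonneg_right hQ2 (sq_nonneg _))
        (len_nonneg _ _)))
  have hHK : ∀ l, ∃ H : E d → ℂ, DifferentiableOn ℂ H (B d) ∧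
      ∀ z ∈ B d, nm (z - p) < ρ → ‖H z - Kf ε (rad k) f (fun j => X j k) (κ l) z‖ ≤ η := by
    intro l
    refine hLA p hp _ ((hKp l).1.mono fun z hz => hz.1)
      (fun z hz _ => ((hKp l).2 z hz).1.trans (by linarith))
      (fun z hz _ ξ => (((hKp l).2 z hz).2 ξ).trans ?_)
    exact mul_le_mul_of_nonneg_right (mul_le_mul_of_nonneg_right (by linarith) (sq_nonneg _))
      (len_nonneg _ _)
  choose HX hHXd hHXb using hHX
  choose Hf hHfd hHfb using hHf
  choose HK hHKd hHKb using hHK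
  obtain ⟨S, hSdef⟩ : ∃ S : E d → ℂ, S = fun z => ∑ j, f j (rad k • z) * Hf j z +
    ∑ l, G l (rad k • z) * (HK l z * ∏ j, HX j z) := ⟨_, rfl⟩
  have hdilf : ∀ g : E d → ℂ, DifferentiableOn ℂ g (B d) →
      DifferentiableOn ℂ (fun z => g (rad k • z)) (B d) := fun g hg z hz =>
    ((dil_hasFDerivAt (da_hol hg (hrz z hz))).differentiableAt).differentiableWithinAt
  have hprod : DifferentiableOn ℂ (fun z => ∏ j, HX j z) (B d) := by
    exact prod_hol Finset.univ hHXd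
  have hSd : DifferentiableOn ℂ S (B d) := by
    rw [hSdef]
    refine DifferentiableOn.add (DifferentiableOn.fun_sum fun j _ => ?_)
      (DifferentiableOn.fun_sum fun l _ => ?_)
    · exact (hdilf _ (hArb.f1 j)).mul (hHfd j)
    · exact (hdilf _ (hArb.g1 l)).mul ((hHKd l).mul hprod)
  -- estimates
  have hmain : ∀ z ∈ B d, nm (z - p) < min ρ R → c / 2 ≤ ‖S z‖ ∧ (∀ j, ‖Hf j z‖ ≤ 3) ∧
      ∀ l, ‖HK l z * ∏ j, HX j z‖ ≤ (Q ^ M * |A| + 1) * (Q + 2) ^ M := by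
    intro z hz hzρ
    obtain ⟨D, hD1, hD2⟩ := D_val (M := M) (L := L) (ε := ε) (r := rad k) (f := f)
      (X := fun j => X j k) (G := G) (κ := κ) (z := z) hε
      (fun h => hArb.k3 _ (hrz z hz) h) (fun j => ((hXP j k).2.2 z hz).2.2.1)
      (fun j => ((hXP j k).2.2 z hz).2.2.2.1)
    obtain ⟨h1, h2, h3⟩ := main_alg (M := M) (L := L) (Q := Q) (A := Q ^ M * |A|) (η := η) hQ1
      hη0.le hη1 (f := fun j => f j (rad k • z)) (Hf := fun j => Hf j z)
      (x := fun j => starRingEnd ℂ (X j k z)) (HX := fun j => HX j z)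
      (G := fun l => G l (rad k • z)) (K := fun l => Kf ε (rad k) f (fun j => X j k) (κ l) z)
      (HK := fun l => HK l z) (D := (D : ℂ))
      (fun j => hArb.f2 j _ (hrz z hz)) (fun j => hHfb j z hz hzρ)
      (fun j => by rw [RCLike.norm_conj]; exact ((hXP j k).2.2 z hz).1.trans hQ2)
      (fun j => hHXb j z hz hzρ) (fun l => hArb.g2 l _ (hrz z hz))
      (fun l => ((hKp l).2 z hz).1)
      (fun l => hHKb l z hz (lt_of_lt_of_le hzρ (min_le_left _ _))) ha1 hD2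
    refine ⟨?_, h2, h3⟩
    rw [← hW] at h1
    have h4 : ‖S z - (D : ℂ)‖ ≤ c / 2 := by
      rw [hSdef]
      exact h1.trans hηW
    have h5 : c ≤ ‖(D : ℂ)‖ := by
      rw [Complex.norm_real, Real.norm_eq_abs, hc]
      exact hD1.trans (le_abs_self D)
    have h6 : ‖(D : ℂ)‖ ≤ ‖(D : ℂ) - S z‖ + ‖S z‖ := by
      have := norm_add_le ((D : ℂ) - S z) (S z)
      rwa [sub_add_cancel] at this
    rw [norm_sub_rev] at h6
    linarith
  have hSne : ∀ z ∈ B d, nm (z - p) < min ρ R → S z ≠ 0 := by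
    intro z hz hzρ h0
    have := (hmain z hz hzρ).1
    rw [h0, norm_zero] at this
    linarith
  refine ⟨fun j z => Hf j z / S z, fun l z => (HK l z * ∏ j, HX j z) / S z, ?_, ?_, ?_⟩
  · intro j
    exact div_hol hSd (hHfd j) fun z hz hz2 => hSne z hz hz2
  · intro l
    exact div_hol hSd ((hHKd l).mul hprod) fun z hz hz2 => hSne z hz hz2
  · intro z hz hzρ
    obtain ⟨h1, h2, h3⟩ := hmain z hz hzρ
    have hS0 : 0 < ‖S z‖ := by linarith
    have hne := hSne z hz hzρ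
    have h6 : (0 : ℝ) ≤ 6 / c := by positivity
    have h7 : (0 : ℝ) ≤ (Q ^ M * |A| + 1) * (Q + 2) ^ M * (2 / c) := by positivity
    have hinv : 1 / ‖S z‖ ≤ 2 / c := by
      rw [div_le_div_iff₀ hS0 hc0]; linarith
    refine ⟨fun j => ?_, fun l => ?_, ?_⟩
    · rw [norm_div]
      have h8 : ‖Hf j z‖ / ‖S z‖ ≤ 6 / c := by
        calc ‖Hf j z‖ / ‖S z‖ = ‖Hf j z‖ * (1 / ‖S z‖) := by ring
          _ ≤ 3 * (2 / c) := mul_le_mul (h2 j) hinv (by positivity) (by norm_num)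
          _ = 6 / c := by ring
      linarith
    · rw [norm_div]
      have h8 : ‖HK l z * ∏ j, HX j z‖ / ‖S z‖ ≤
          (Q ^ M * |A| + 1) * (Q + 2) ^ M * (2 / c) := by
        calc ‖HK l z * ∏ j, HX j z‖ / ‖S z‖ = ‖HK l z * ∏ j, HX j z‖ * (1 / ‖S z‖) := by ring
          _ ≤ _ := mul_le_mul (h3 l) hinv (by positivity) (by positivity)
      linarith
    · have h8 : ∑ j, f j (rad k • z) * (Hf j z / S z) +
          ∑ l, G l (rad k • z) * ((HK l z * ∏ j, HX j z) / S z) = S z / S z := by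
        rw [hSdef]
        simp only [add_div, Finset.sum_div, mul_div_assoc]
      rw [h8, div_self hne]

end Pool.Agent.N787.RK
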